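import Mathlib

/-! Hausdorff content on a metric space. -/

open MeasureTheory Set Metric Filter Topology
open scoped ENNReal NNReal

namespace Pool.Agent.V1190.HD

variable {K : Type*} [MetricSpace K]

/-- Hausdorff content of exponent `t`. -/
noncomputable def cont (t : ℝ) (E : Set K) : ℝ≥0∞ :=
  ⨅ (U : ℕ → Set K) (_ : E ⊆ ⋃ n, U n), ∑' n, ediam (U n) ^ t

lemma cont_eq {t : ℝ} (ht : 0 < t) (E : Set K) :
    cont t E = OuterMeasure.ofFunction (fun s : Set K => ediam s ^ t) (by simp [ht]) E := rfl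

lemma cont_le_cover {t : ℝ} {E : Set K} {U : ℕ → Set K} (hU : E ⊆ ⋃ n, U n) :
    cont t E ≤ ∑' n, ediam (U n) ^ t := iInf₂_le U hU

lemma exists_cover_lt {t : ℝ} {E : Set K} {a : ℝ≥0∞} (h : cont t E < a) :
    ∃ U : ℕ → Set K, E ⊆ (⋃ n, U n) ∧ ∑' n, ediam (U n) ^ t < a := by
  unfold cont at h
  simp only [iInf_lt_iff] at h
  obtain ⟨U, hU, h⟩ := h
  exact ⟨U, hU, h⟩

lemma cont_mono {t : ℝ} {E F : Set K} (h : E ⊆ F) : cont t E ≤ cont t F := by
  unfold cont
  refine le_iInf₂ fun U hU => ?_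
  exact iInf₂_le U (h.trans hU)

lemma cont_union_le {t : ℝ} (ht : 0 < t) (E F : Set K) :
    cont t (E ∪ F) ≤ cont t E + cont t F := by
  simp only [cont_eq ht]
  exact measure_union_le _ _

lemma cont_iUnion_le {t : ℝ} (ht : 0 < t) (E : ℕ → Set K) :
    cont t (⋃ n, E n) ≤ ∑' n, cont t (E n) := by
  simp only [cont_eq ht]
  exact measure_iUnion_le _

lemma cont_biUnion_finset_le {ι : Type*} {t : ℝ} (ht : 0 < t) (s : Finset ι) (E : ι → Set K) :
    cont t (⋃ i ∈ s, E i) ≤ ∑ i ∈ s, cont t (E i) := by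
  simp only [cont_eq ht]
  exact measure_biUnion_finset_le _ _

lemma cont_empty {t : ℝ} (ht : 0 < t) : cont t (∅ : Set K) = 0 := by
  simp only [cont_eq ht]
  exact measure_empty

lemma cont_le_ediam {t : ℝ} (ht : 0 < t) (E : Set K) : cont t E ≤ ediam E ^ t := by
  rw [cont_eq ht]
  exact OuterMeasure.ofFunction_le _

lemma ediam_closedBall_le (x : K) {R : ℝ} (hR : 0 ≤ R) :
    ediam (closedBall x R) ≤ ENNReal.ofReal (2 * R) := by
  apply ediam_le
  intro y hy z hz
  rw [edist_dist]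
  apply ENNReal.ofReal_le_ofReal
  have h1 : dist y x ≤ R := hy
  have h2 : dist z x ≤ R := hz
  have := dist_triangle_right y z x
  linarith

lemma cont_le_ball {t : ℝ} (ht : 0 < t) {E : Set K} {x : K} {R : ℝ} (hR : 0 ≤ R)
    (h : E ⊆ closedBall x R) : cont t E ≤ ENNReal.ofReal ((2 * R) ^ t) := by
  refine (cont_le_ediam ht E).trans ?_
  have h1 : ediam E ≤ ENNReal.ofReal (2 * R) := (ediam_mono h).trans (ediam_closedBall_le x hR)
  refine (ENNReal.rpow_le_rpow h1 ht.le).trans ?_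
  rw [ENNReal.ofReal_rpow_of_nonneg (by linarith) ht.le]

/-- Contents are outer regular with respect to open sets. -/
lemma exists_open_lt {t : ℝ} (ht : 0 < t) {E : Set K} {a : ℝ≥0∞} (h : cont t E < a) :
    ∃ O : Set K, IsOpen O ∧ E ⊆ O ∧ cont t O < a := by
  obtain ⟨U, hU, hs⟩ := exists_cover_lt h
  set S := ∑' n, ediam (U n) ^ t with hS
  have hSt : S ≠ ⊤ := (hs.trans_le le_top).ne
  obtain ⟨b, hSb, hba⟩ := exists_between hs
  have hpos : b - S ≠ 0 := by
    rw [Ne, tsub_eq_zero_iff_le]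
    exact not_le.2 hSb
  obtain ⟨ε, hε, hεs⟩ := ENNReal.exists_pos_sum_of_countable' hpos ℕ
  have hthick : ∀ n, ∃ V : Set K, IsOpen V ∧ U n ⊆ V ∧ ediam V ^ t ≤ ediam (U n) ^ t + ε n := by
    intro n
    have hfin : ediam (U n) ^ t ≠ ⊤ := by
      have : ediam (U n) ^ t ≤ S := ENNReal.le_tsum n
      exact ne_top_of_le_ne_top hSt this
    have hfin' : ediam (U n) ≠ ⊤ := by
      intro h
      rw [h, ENNReal.top_rpow_of_pos ht] at hfin
      exact hfin rfl
    have hc : Tendsto (fun δ : ℝ≥0 => (ediam (U n) + 2 * (δ : ℝ≥0∞)) ^ t) (𝓝[>] 0)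
        (𝓝 ((ediam (U n) + 2 * ((0 : ℝ≥0) : ℝ≥0∞)) ^ t)) := by
      apply Tendsto.mono_left _ nhdsWithin_le_nhds
      apply Continuous.tendsto
      apply (ENNReal.continuous_rpow_const).comp
      apply Continuous.add continuous_const
      exact (ENNReal.continuous_const_mul (by simp)).comp ENNReal.continuous_coe
    have hlt : (ediam (U n) + 2 * ((0 : ℝ≥0) : ℝ≥0∞)) ^ t < ediam (U n) ^ t + ε n := by
      simp only [ENNReal.coe_zero, mul_zero, add_zero]
      exact ENNReal.lt_add_right hfin (hε n).ne'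
    have hev := (hc.eventually (gt_mem_nhds hlt)).and self_mem_nhdsWithin
    obtain ⟨δ, hδ, hδ0⟩ := hev.exists
    have hδ0' : (0 : ℝ) < δ := by exact_mod_cast hδ0
    refine ⟨thickening δ (U n), isOpen_thickening, self_subset_thickening hδ0' _, ?_⟩
    refine le_trans ?_ hδ.le
    exact ENNReal.rpow_le_rpow (ediam_thickening_le δ) ht.le
  choose V hV1 hV2 hV3 using hthick
  refine ⟨⋃ n, V n, isOpen_iUnion hV1, hU.trans (iUnion_mono hV2), ?_⟩
  calc cont t (⋃ n, V n) ≤ ∑' n, ediam (V n) ^ t := cont_le_cover subset_rfl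
    _ ≤ ∑' n, (ediam (U n) ^ t + ε n) := ENNReal.tsum_le_tsum hV3
    _ = S + ∑' n, ε n := ENNReal.tsum_add
    _ ≤ S + (b - S) := by gcongr
    _ = b := add_tsub_cancel_of_le hSb.le
    _ < a := hba

variable [MeasurableSpace K] [BorelSpace K]

lemma cont_le_hausdorff {u : ℝ} (hu : 0 < u) (E : Set K) : cont u E ≤ μH[u] E := by
  rw [Measure.hausdorffMeasure_apply]
  refine le_trans ?_ (le_iSup₂ (1 : ℝ≥0∞) one_pos)
  refine le_iInf fun U => le_iInf fun hU => le_iInf fun _ => ?_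
  refine (cont_le_cover hU).trans ?_
  refine ENNReal.tsum_le_tsum fun n => ?_
  rcases (U n).eq_empty_or_nonempty with h | h
  · rw [h]; simp [hu]
  · simp [h]

lemma hausdorff_zero {t : ℝ} (ht : 0 < t) {E : Set K} (h : cont t E = 0) : μH[t] E = 0 := by
  rw [Measure.hausdorffMeasure_apply]
  simp only [ENNReal.iSup_eq_zero]
  intro r hr
  rw [← nonpos_iff_eq_zero]
  apply le_of_forall_pos_le_add
  intro ε hε
  rw [zero_add]
  have hpos : (0 : ℝ≥0∞) < min ε (r ^ t) := lt_min hε (ENNReal.rpow_pos_of_nonneg hr ht.le)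
  obtain ⟨U, hU, hs⟩ := exists_cover_lt (h.trans_lt hpos)
  refine (iInf₂_le U hU).trans ?_
  refine iInf_le_of_le ?_ ?_
  · intro n
    have h1 : ediam (U n) ^ t < r ^ t :=
      ((ENNReal.le_tsum n).trans_lt hs).trans_le (min_le_right _ _)
    exact ((ENNReal.rpow_lt_rpow_iff ht).1 h1).le
  · refine le_trans ?_ (hs.le.trans (min_le_left _ _))
    refine ENNReal.tsum_le_tsum fun n => ?_
    exact iSup_le fun _ => le_rfl

end Pool.Agent.V1190.HD
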