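import Pool.Agent.V1190.HD.Howroyd

/-! Compact families of compact sets realising the range of a continuous function. -/

open MeasureTheory Set Metric Filter Topology TopologicalSpace
open scoped ENNReal NNReal

namespace Pool.Agent.V1190.HD

section Basic

variable {K : Type*} [MetricSpace K] [CompactSpace K]

/-- A point all of whose neighbourhoods have full dimension. -/
lemma exists_full_point [Nonempty K] :
    ∃ p : K, ∀ r : ℝ, 0 < r → dimH (closedBall p r) = dimH (univ : Set K) := by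
  by_contra hcon
  push Not at hcon
  choose r hr hne using hcon
  have hlt : ∀ p, dimH (closedBall p (r p)) < dimH (univ : Set K) := fun p =>
    lt_of_le_of_ne (dimH_mono (subset_univ _)) (hne p)
  obtain ⟨s, -, hs⟩ := (isCompact_univ (X := K)).elim_nhds_subcover (fun p => closedBall p (r p))
    (fun p _ => closedBall_mem_nhds p (hr p))
  have hpos : ⊥ < dimH (univ : Set K) :=
    lt_of_le_of_lt bot_le (hlt (Classical.arbitrary K))
  have h1 : dimH (⋃ x ∈ s, closedBall x (r x)) < dimH (univ : Set K) := by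
    rw [show (⋃ x ∈ s, closedBall x (r x)) = ⋃ x ∈ (s : Set K), closedBall x (r x) from rfl,
      dimH_bUnion s.countable_toSet]
    have h2 : (⨆ x ∈ (s : Set K), dimH (closedBall x (r x))) =
        s.sup (fun x => dimH (closedBall x (r x))) := by
      rw [Finset.sup_eq_iSup]
      rfl
    rw [h2, Finset.sup_lt_iff hpos]
    intro x _
    exact hlt x
  exact absurd (h1.trans_le (dimH_mono hs)) (lt_irrefl _)

end Basic

section TF

variable {K : Type*} [MetricSpace K] [CompactSpace K]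

/-- Values certified by the first `j` coordinates. -/
def Sv (f : (ℕ → ℕ) → ℝ≥0∞) (j : ℕ) (y : ℕ → ℕ) : Set ℝ≥0∞ :=
  {a | a ∈ range f ∧ ∀ z, (∀ i < j, z i = y i) → a ≤ f z}

lemma Sv_congr (f : (ℕ → ℕ) → ℝ≥0∞) {j : ℕ} {y y' : ℕ → ℕ} (h : ∀ i < j, y i = y' i) :
    Sv f j y = Sv f j y' := by
  ext a
  constructor
  · rintro ⟨h1, h2⟩
    exact ⟨h1, fun z hz => h2 z fun i hi => (hz i hi).trans (h i hi).symm⟩
  · rintro ⟨h1, h2⟩
    exact ⟨h1, fun z hz => h2 z fun i hi => (hz i hi).trans (h i hi)⟩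

lemma exists_sq (S : Set ℝ≥0∞) : ∃ u : ℕ → ℝ≥0∞, S.Nonempty →
    (Tendsto u atTop (𝓝 (sSup S)) ∧ ∀ n, u n ∈ S) := by
  by_cases h : S.Nonempty
  · obtain ⟨u, -, h1, h2⟩ := exists_seq_tendsto_sSup h (OrderTop.bddAbove S)
    exact ⟨u, fun _ => ⟨h1, h2⟩⟩
  · exact ⟨fun _ => 0, fun h' => absurd h' h⟩

/-- A sequence in `S` tending to its supremum. -/
noncomputable def sq (S : Set ℝ≥0∞) : ℕ → ℝ≥0∞ := (exists_sq S).choose

lemma sq_tendsto {S : Set ℝ≥0∞} (h : S.Nonempty) : Tendsto (sq S) atTop (𝓝 (sSup S)) :=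
  ((exists_sq S).choose_spec h).1

lemma sq_mem {S : Set ℝ≥0∞} (h : S.Nonempty) (n : ℕ) : sq S n ∈ S :=
  ((exists_sq S).choose_spec h).2 n

/-- The localisation exponent. -/
def ka (k0 j : ℕ) (y : ℕ → ℕ) : ℕ := k0 + j + ∑ i ∈ Finset.range j, y i

/-- The `j`-th block. -/
noncomputable def Qb (f : (ℕ → ℕ) → ℝ≥0∞) (pc : ℝ≥0∞ → ℕ → Set K) (k0 j : ℕ) (y : ℕ → ℕ) :
    Set K :=
  ⋃ j' ∈ Finset.range (j + 1), pc (sq (Sv f j' y) j) (ka k0 j y)

omit [MetricSpace K] [CompactSpace K] in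
lemma Qb_congr (f : (ℕ → ℕ) → ℝ≥0∞) (pc : ℝ≥0∞ → ℕ → Set K) (k0 : ℕ) {j : ℕ} {y y' : ℕ → ℕ}
    (h : ∀ i < j, y i = y' i) : Qb f pc k0 j y = Qb f pc k0 j y' := by
  unfold Qb
  have h1 : ka k0 j y = ka k0 j y' := by
    unfold ka
    congr 1
    exact Finset.sum_congr rfl fun i hi => h i (Finset.mem_range.1 hi)
  rw [h1]
  refine iUnion₂_congr fun j' hj' => ?_
  rw [Sv_congr f (fun i hi => h i (by have := Finset.mem_range.1 hj'; omega))]

/-- The finite coordinates. -/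
def yf (x : ℕ → ℕ∞) : ℕ → ℕ := fun i => (x i).toNat

/-- The compact set attached to a point. -/
noncomputable def Cs (f : (ℕ → ℕ) → ℝ≥0∞) (pc : ℝ≥0∞ → ℕ → Set K) (p : K) (k0 : ℕ)
    (x : ℕ → ℕ∞) : Set K :=
  {p} ∪ ⋃ (j : ℕ) (_ : ∀ i < j, x i ≠ ⊤), Qb f pc k0 j (yf x)

variable {f : (ℕ → ℕ) → ℝ≥0∞} {D : ℝ≥0∞} {p : K} {pc : ℝ≥0∞ → ℕ → Set K} {b : ℝ≥0∞}

lemma Sv_nonempty (hb : b ∈ range f) (hmin : ∀ y, b ≤ f y) (j : ℕ) (y : ℕ → ℕ) :
    (Sv f j y).Nonempty := ⟨b, hb, fun z _ => hmin z⟩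

lemma sq_le (hb : b ∈ range f) (hmin : ∀ y, b ≤ f y) (hfD : ∀ y, f y ≤ D) (j : ℕ) (y : ℕ → ℕ)
    (n : ℕ) : sq (Sv f j y) n ≤ D := by
  obtain ⟨z, hz⟩ := (sq_mem (Sv_nonempty hb hmin j y) n).1
  rw [← hz]
  exact hfD z

omit [CompactSpace K] in
lemma Qb_sub (hb : b ∈ range f) (hmin : ∀ y, b ≤ f y) (hfD : ∀ y, f y ≤ D)
    (hpc : ∀ a ≤ D, ∀ k, IsCompact (pc a k) ∧ pc a k ⊆ closedBall p ((1 / 2) ^ k) ∧
      dimH (pc a k) = a) (k0 j : ℕ) (y : ℕ → ℕ) {k : ℕ} (hk : k ≤ ka k0 j y) :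
    Qb f pc k0 j y ⊆ closedBall p ((1 / 2) ^ k) := by
  refine iUnion₂_subset fun j' _ => ?_
  refine ((hpc _ (sq_le hb hmin hfD j' y j) _).2.1).trans (closedBall_subset_closedBall ?_)
  exact pow_le_pow_of_le_one (by norm_num) (by norm_num) hk

omit [CompactSpace K] in
lemma Qb_compact (hb : b ∈ range f) (hmin : ∀ y, b ≤ f y) (hfD : ∀ y, f y ≤ D)
    (hpc : ∀ a ≤ D, ∀ k, IsCompact (pc a k) ∧ pc a k ⊆ closedBall p ((1 / 2) ^ k) ∧
      dimH (pc a k) = a) (k0 j : ℕ) (y : ℕ → ℕ) : IsCompact (Qb f pc k0 j y) :=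
  (Finset.range (j + 1)).isCompact_biUnion fun j' _ => (hpc _ (sq_le hb hmin hfD j' y j) _).1

lemma exists_pow_lt {r : ℝ} (hr : 0 < r) : ∃ k : ℕ, (1 / 2 : ℝ) ^ k < r :=
  exists_pow_lt_of_lt_one hr (by norm_num)

lemma Cs_closed (hb : b ∈ range f) (hmin : ∀ y, b ≤ f y) (hfD : ∀ y, f y ≤ D)
    (hpc : ∀ a ≤ D, ∀ k, IsCompact (pc a k) ∧ pc a k ⊆ closedBall p ((1 / 2) ^ k) ∧
      dimH (pc a k) = a) (k0 : ℕ) (x : ℕ → ℕ∞) : IsClosed (Cs f pc p k0 x) := by
  classical
  have heq : Cs f pc p k0 x = ⋂ k : ℕ, ((⋃ j ∈ (Finset.range k).filter (fun j => ∀ i < j, x i ≠ ⊤),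
      Qb f pc k0 j (yf x)) ∪ closedBall p ((1 / 2) ^ k)) := by
    ext q
    constructor
    · rintro (hq | hq)
      · rw [mem_iInter]
        intro k
        right
        rw [mem_singleton_iff.1 hq]
        exact mem_closedBall_self (by positivity)
      · obtain ⟨j, hj, hq⟩ := mem_iUnion₂.1 hq
        rw [mem_iInter]
        intro k
        by_cases hjk : j < k
        · left
          refine mem_iUnion₂.2 ⟨j, ?_, hq⟩
          rw [Finset.mem_filter, Finset.mem_range]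
          exact ⟨hjk, hj⟩
        · right
          refine Qb_sub hb hmin hfD hpc k0 j _ ?_ hq
          unfold ka
          omega
    · intro hq
      rw [mem_iInter] at hq
      by_cases hqp : q = p
      · left
        exact hqp
      · right
        obtain ⟨k, hk⟩ := exists_pow_lt (dist_pos.2 hqp)
        rcases hq k with h | h
        · obtain ⟨j, hj, hq⟩ := mem_iUnion₂.1 h
          exact mem_iUnion₂.2 ⟨j, (Finset.mem_filter.1 hj).2, hq⟩
        · rw [mem_closedBall] at h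
          linarith
  rw [heq]
  refine isClosed_iInter fun k => ?_
  refine IsClosed.union ?_ isClosed_closedBall
  exact (Finset.isCompact_biUnion _ fun j _ => Qb_compact hb hmin hfD hpc k0 j _).isClosed

lemma Cs_sub (hb : b ∈ range f) (hmin : ∀ y, b ≤ f y) (hfD : ∀ y, f y ≤ D)
    (hpc : ∀ a ≤ D, ∀ k, IsCompact (pc a k) ∧ pc a k ⊆ closedBall p ((1 / 2) ^ k) ∧
      dimH (pc a k) = a) (k0 : ℕ) (x : ℕ → ℕ∞) :
    Cs f pc p k0 x ⊆ closedBall p ((1 / 2) ^ k0) := by
  rintro q (hq | hq)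
  · rw [mem_singleton_iff.1 hq]
    exact mem_closedBall_self (by positivity)
  · obtain ⟨j, -, hq⟩ := mem_iUnion₂.1 hq
    refine Qb_sub hb hmin hfD hpc k0 j _ ?_ hq
    unfold ka
    omega

/-- The neighbourhoods used for continuity. -/
def Near (k : ℕ) (x x' : ℕ → ℕ∞) : Prop :=
  ∀ i ∈ Finset.range k, (x i ≠ ⊤ → x' i = x i) ∧ (x i = ⊤ → (k : ℕ∞) < x' i)

lemma near_eventually (k : ℕ) (x : ℕ → ℕ∞) : ∀ᶠ x' in 𝓝 x, Near k x x' := by
  unfold Near
  rw [Filter.eventually_all_finset]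
  intro i _
  have hc : Tendsto (fun x' : ℕ → ℕ∞ => x' i) (𝓝 x) (𝓝 (x i)) := (continuous_apply i).tendsto x
  by_cases h : x i = ⊤
  · have h1 : ∀ᶠ w in 𝓝 (x i), (k : ℕ∞) < w := by
      apply lt_mem_nhds
      rw [h]
      exact ENat.natCast_lt_top k
    filter_upwards [hc.eventually h1] with x' hx'
    exact ⟨fun h' => absurd h h', fun _ => hx'⟩
  · have h1 : ∀ᶠ w in 𝓝 (x i), w = x i := by
      have : IsOpen {x i} := ENat.isOpen_singleton h
      exact this.mem_nhds rfl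
    filter_upwards [hc.eventually h1] with x' hx'
    exact ⟨fun _ => hx', fun h' => absurd h' h⟩

lemma Cs_near (hb : b ∈ range f) (hmin : ∀ y, b ≤ f y) (hfD : ∀ y, f y ≤ D)
    (hpc : ∀ a ≤ D, ∀ k, IsCompact (pc a k) ∧ pc a k ⊆ closedBall p ((1 / 2) ^ k) ∧
      dimH (pc a k) = a) (k0 k : ℕ) {x x' : ℕ → ℕ∞} (hN : Near k x x') :
    (∀ q ∈ Cs f pc p k0 x, q ∈ Cs f pc p k0 x' ∨ dist q p ≤ (1 / 2) ^ k) ∧
    (∀ q ∈ Cs f pc p k0 x', q ∈ Cs f pc p k0 x ∨ dist q p ≤ (1 / 2) ^ k) := by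
  have hsame : ∀ j ≤ k, (∀ i < j, x i ≠ ⊤) → ∀ i < j, x' i = x i := by
    intro j hj hx i hi
    exact (hN i (Finset.mem_range.2 (by omega))).1 (hx i hi)
  constructor
  · rintro q (hq | hq)
    · left; left; exact hq
    · obtain ⟨j, hj, hq⟩ := mem_iUnion₂.1 hq
      by_cases hjk : j ≤ k
      · left; right
        have h1 := hsame j hjk hj
        refine mem_iUnion₂.2 ⟨j, fun i hi => by rw [h1 i hi]; exact hj i hi, ?_⟩
        rw [Qb_congr f pc k0 (y' := yf x)]
        · exact hq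
        · intro i hi
          unfold yf
          rw [h1 i hi]
      · right
        refine Qb_sub hb hmin hfD hpc k0 j _ ?_ hq
        unfold ka
        omega
  · rintro q (hq | hq)
    · left; left; exact hq
    · obtain ⟨j, hj, hq⟩ := mem_iUnion₂.1 hq
      by_cases hjk : j ≤ k
      · by_cases hx : ∀ i < j, x i ≠ ⊤
        · left; right
          have h1 := hsame j hjk hx
          refine mem_iUnion₂.2 ⟨j, hx, ?_⟩
          rw [Qb_congr f pc k0 (y' := yf x')]
          · exact hq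
          · intro i hi
            unfold yf
            rw [h1 i hi]
        · push Not at hx
          obtain ⟨i, hi, hxi⟩ := hx
          right
          have h1 := (hN i (Finset.mem_range.2 (by omega))).2 hxi
          refine Qb_sub hb hmin hfD hpc k0 j _ ?_ hq
          have h2 : k ≤ yf x' i := by
            unfold yf
            have h3 : ((x' i).toNat : ℕ∞) = x' i := ENat.natCast_toNat (hj i hi)
            rw [← h3] at h1
            exact_mod_cast h1.le
          have h3 : yf x' i ≤ ∑ i ∈ Finset.range j, yf x' i :=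
            Finset.single_le_sum (f := fun i => yf x' i) (fun _ _ => Nat.zero_le _)
              (Finset.mem_range.2 hi)
          unfold ka
          omega
      · right
        refine Qb_sub hb hmin hfD hpc k0 j _ ?_ hq
        unfold ka
        omega

omit [CompactSpace K] in
/-- The dimension of the set attached to an infinite sequence. -/
lemma dimH_Cs_all (hf : Continuous f) (hb : b ∈ range f) (hmin : ∀ y, b ≤ f y)
    (hfD : ∀ y, f y ≤ D)
    (hpc : ∀ a ≤ D, ∀ k, IsCompact (pc a k) ∧ pc a k ⊆ closedBall p ((1 / 2) ^ k) ∧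
      dimH (pc a k) = a) (k0 : ℕ) {x : ℕ → ℕ∞} (hx : ∀ i, x i ≠ ⊤) :
    dimH (Cs f pc p k0 x) = f (yf x) := by
  set y := yf x with hy
  apply le_antisymm
  · unfold Cs
    rw [dimH_union, dimH_singleton, max_eq_right (zero_le), dimH_iUnion]
    refine iSup_le fun j => ?_
    rw [dimH_iUnion]
    refine iSup_le fun _ => ?_
    unfold Qb
    rw [dimH_iUnion]
    refine iSup_le fun j' => ?_
    rw [dimH_iUnion]
    refine iSup_le fun _ => ?_
    rw [(hpc _ (sq_le hb hmin hfD j' _ j) _).2.2]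
    exact (sq_mem (Sv_nonempty hb hmin j' _) j).2 _ (fun _ _ => rfl)
  · apply le_of_forall_lt_imp_le_of_dense
    intro c hc
    have key : ∃ j', ∃ w ∈ Sv f j' y, c < w := by
      have hcyl : ∀ U : Set (ℕ → ℕ), IsOpen U → y ∈ U → ∃ n, ∀ z, (∀ i < n, z i = y i) → z ∈ U := by
        intro U hU hyU
        obtain ⟨s, ⟨x0, n, rfl⟩, hys, hsU⟩ :=
          (PiNat.isTopologicalBasis_cylinders (fun _ : ℕ => ℕ)).exists_subset_of_mem_open hyU hU
        refine ⟨n, fun z hz => hsU ?_⟩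
        rw [PiNat.mem_cylinder_iff] at hys ⊢
        intro i hi
        rw [hz i hi, hys i hi]
      by_cases h : ∃ w ∈ range f, c < w ∧ w < f y
      · obtain ⟨w, hw, hcw, hwf⟩ := h
        obtain ⟨n, hn⟩ := hcyl {z | w < f z} (isOpen_lt continuous_const hf) hwf
        exact ⟨n, w, ⟨hw, fun z hz => (hn z hz).le⟩, hcw⟩
      · push Not at h
        obtain ⟨n, hn⟩ := hcyl {z | c < f z} (isOpen_lt continuous_const hf) hc
        exact ⟨n, f y, ⟨⟨y, rfl⟩, fun z hz => h _ ⟨z, rfl⟩ (hn z hz)⟩, hc⟩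
    obtain ⟨j', w, hw, hcw⟩ := key
    have h1 : c < sSup (Sv f j' y) := hcw.trans_le (le_sSup hw)
    obtain ⟨n, hn1, hn2⟩ := (((sq_tendsto (Sv_nonempty hb hmin j' y)).eventually
      (lt_mem_nhds h1)).and (eventually_ge_atTop j')).exists
    refine hn1.le.trans ?_
    rw [← (hpc _ (sq_le hb hmin hfD j' y n) (ka k0 n y)).2.2]
    apply dimH_mono
    refine subset_trans ?_ subset_union_right
    refine subset_trans ?_ (subset_iUnion₂ (s := fun (j : ℕ) (_ : ∀ i < j, x i ≠ ⊤) =>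
      Qb f pc k0 j (yf x)) n (fun i _ => hx i))
    exact subset_iUnion₂ (s := fun j' (_ : j' ∈ Finset.range (n + 1)) =>
      pc (sq (Sv f j' y) n) (ka k0 n y)) j' (Finset.mem_range.2 (by omega))

omit [CompactSpace K] in
/-- The dimension of the set attached to an eventually infinite sequence. -/
lemma dimH_Cs_top (hb : b ∈ range f) (hmin : ∀ y, b ≤ f y) (hfD : ∀ y, f y ≤ D)
    (hpc : ∀ a ≤ D, ∀ k, IsCompact (pc a k) ∧ pc a k ⊆ closedBall p ((1 / 2) ^ k) ∧
      dimH (pc a k) = a) (k0 : ℕ) {x : ℕ → ℕ∞} (hx : ∃ i, x i = ⊤) :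
    dimH (Cs f pc p k0 x) ∈ range f := by
  classical
  obtain ⟨N, hN⟩ := hx
  set y := yf x with hy
  set I : Finset (ℕ × ℕ) := ((Finset.range (N + 1)) ×ˢ (Finset.range (N + 1))).filter
    (fun q => (∀ i < q.1, x i ≠ ⊤) ∧ q.2 ≤ q.1) with hI
  have hIne : I.Nonempty := by
    refine ⟨(0, 0), ?_⟩
    rw [hI, Finset.mem_filter, Finset.mem_product]
    simp
  obtain ⟨q, hqI, hq⟩ := Finset.exists_max_image I (fun q => sq (Sv f q.2 y) q.1) hIne
  have hval : dimH (Cs f pc p k0 x) = sq (Sv f q.2 y) q.1 := by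
    apply le_antisymm
    · unfold Cs
      rw [dimH_union, dimH_singleton, max_eq_right (zero_le), dimH_iUnion]
      refine iSup_le fun j => ?_
      rw [dimH_iUnion]
      refine iSup_le fun hj => ?_
      unfold Qb
      rw [dimH_iUnion]
      refine iSup_le fun j' => ?_
      rw [dimH_iUnion]
      refine iSup_le fun hj' => ?_
      rw [(hpc _ (sq_le hb hmin hfD j' _ j) _).2.2]
      apply hq (j, j')
      have hjN : j ≤ N := by
        by_contra h
        exact hj N (by omega) hN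
      have hj'' := Finset.mem_range.1 hj'
      rw [hI, Finset.mem_filter, Finset.mem_product, Finset.mem_range, Finset.mem_range]
      refine ⟨⟨by simp only; omega, by simp only; omega⟩, hj, by simp only; omega⟩
    · rw [hI, Finset.mem_filter] at hqI
      rw [← (hpc _ (sq_le hb hmin hfD q.2 y q.1) (ka k0 q.1 y)).2.2]
      apply dimH_mono
      refine subset_trans ?_ subset_union_right
      refine subset_trans ?_ (subset_iUnion₂ (s := fun (j : ℕ) (_ : ∀ i < j, x i ≠ ⊤) =>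
        Qb f pc k0 j (yf x)) q.1 hqI.2.1)
      exact subset_iUnion₂ (s := fun j' (_ : j' ∈ Finset.range (q.1 + 1)) =>
        pc (sq (Sv f j' y) q.1) (ka k0 q.1 y)) q.2
        (Finset.mem_range.2 (by have := hqI.2.2; omega))
  rw [hval]
  exact (sq_mem (Sv_nonempty hb hmin q.2 y) q.1).1

/-- The family for a set with a smallest element. -/
lemma tree_family (hf : Continuous f) (hb : b ∈ range f) (hmin : ∀ y, b ≤ f y)
    (hfD : ∀ y, f y ≤ D)
    (hpc : ∀ a ≤ D, ∀ k, IsCompact (pc a k) ∧ pc a k ⊆ closedBall p ((1 / 2) ^ k) ∧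
      dimH (pc a k) = a) (k0 : ℕ) :
    ∃ Fm : Set (NonemptyCompacts K), IsCompact Fm ∧
      (∀ C ∈ Fm, (C : Set K) ⊆ closedBall p ((1 / 2) ^ k0)) ∧
      (fun C : NonemptyCompacts K => dimH (C : Set K)) '' Fm = range f := by
  set Φ : (ℕ → ℕ∞) → NonemptyCompacts K := fun x =>
    ⟨⟨Cs f pc p k0 x, (Cs_closed hb hmin hfD hpc k0 x).isCompact⟩, ⟨p, Or.inl rfl⟩⟩ with hΦ
  have hΦc : ∀ x, (Φ x : Set K) = Cs f pc p k0 x := fun x => rfl
  have hcont : Continuous Φ := by
    rw [continuous_iff_continuousAt]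
    intro x
    rw [ContinuousAt, Metric.tendsto_nhds]
    intro ε hε
    obtain ⟨k, hk⟩ := exists_pow_lt hε
    filter_upwards [near_eventually k x] with x' hx'
    obtain ⟨h1, h2⟩ := Cs_near (p := p) hb hmin hfD hpc k0 k hx'
    rw [Metric.NonemptyCompacts.dist_eq]
    refine lt_of_le_of_lt ?_ hk
    apply hausdorffDist_le_of_mem_dist (by positivity)
    · intro q hq
      rcases h2 q hq with h | h
      · exact ⟨q, h, by rw [dist_self]; positivity⟩
      · exact ⟨p, Or.inl rfl, h⟩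
    · intro q hq
      rcases h1 q hq with h | h
      · exact ⟨q, h, by rw [dist_self]; positivity⟩
      · exact ⟨p, Or.inl rfl, h⟩
  refine ⟨range Φ, isCompact_range hcont, ?_, ?_⟩
  · rintro _ ⟨x, rfl⟩
    exact Cs_sub hb hmin hfD hpc k0 x
  · apply subset_antisymm
    · rintro _ ⟨_, ⟨x, rfl⟩, rfl⟩
      simp only [hΦc]
      by_cases hx : ∀ i, x i ≠ ⊤
      · rw [dimH_Cs_all hf hb hmin hfD hpc k0 hx]
        exact ⟨_, rfl⟩
      · push Not at hx
        exact dimH_Cs_top hb hmin hfD hpc k0 hx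
    · rintro _ ⟨y, rfl⟩
      refine ⟨Φ (fun i => (y i : ℕ∞)), ⟨_, rfl⟩, ?_⟩
      simp only [hΦc]
      rw [dimH_Cs_all hf hb hmin hfD hpc k0 (fun i => ENat.natCast_ne_top (y i))]
      congr 1

end TF

end Pool.Agent.V1190.HD
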