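import Pool.Agent.V1190.HD.Tree

/-! Compact subsets of prescribed Hausdorff dimension. -/

open MeasureTheory Set Metric Filter Topology
open scoped ENNReal NNReal

namespace Pool.Agent.V1190.HD

variable {K : Type*} [MetricSpace K] [CompactSpace K]

lemma node_result {t : ℝ≥0} (ht : 0 < t) {P : Set K} {y : K} {s : ℝ}
    (hN : Node (t : ℝ) P y s) : ∃ C ⊆ P, IsCompact C ∧ dimH C = t := by
  borelize K
  have ht' : (0 : ℝ) < t := by exact_mod_cast ht
  have hs0 := hN.pos
  have hs1 := hN.small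
  set C : Set K := ⋂ m, T (t : ℝ) m P y s with hC
  have hTc : ∀ m, IsCompact (T (t : ℝ) m P y s) := fun m => T_compact ht' m hN
  have hCc : IsCompact C := by
    apply (hTc 0).of_isClosed_subset
    · exact isClosed_iInter fun m => (hTc m).isClosed
    · exact iInter_subset _ 0
  refine ⟨C, (iInter_subset _ 0), hCc, ?_⟩
  apply le_antisymm
  · -- upper bound
    apply le_of_forall_gt_imp_ge_of_dense
    intro v' hv'
    obtain ⟨v, hv1, hv2⟩ := ENNReal.lt_iff_exists_nnreal_btwn.1 hv'
    refine le_trans ?_ hv2.le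
    have hv1' : (t : ℝ) < v := by exact_mod_cast hv1
    apply dimH_le_of_hausdorffMeasure_ne_top
    have hz : cont (v : ℝ) C = 0 := by
      have hle : ∀ m, cont (v : ℝ) C ≤ ENNReal.ofReal
          (2 ^ m * (2 ^ (v : ℝ) * (s ^ (t : ℝ) * (s ^ 2 ^ m) ^ ((v : ℝ) - t)))) := fun m =>
        (cont_mono (iInter_subset _ m)).trans (T_upper ht' hv1' m hN)
      have hlim : Tendsto (fun m : ℕ => ENNReal.ofReal
          (2 ^ m * (2 ^ (v : ℝ) * (s ^ (t : ℝ) * (s ^ 2 ^ m) ^ ((v : ℝ) - t))))) atTop (𝓝 0) := by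
        rw [← ENNReal.ofReal_zero]
        apply ENNReal.tendsto_ofReal
        set q : ℝ := s ^ ((v : ℝ) - t) with hq
        have hq0 : 0 ≤ q := Real.rpow_nonneg hs0.le _
        have hq1 : q < 1 := Real.rpow_lt_one hs0.le (by linarith) (by linarith)
        have h1 : Tendsto (fun n : ℕ => (n : ℝ) * q ^ n) atTop (𝓝 0) :=
          tendsto_self_mul_const_pow_of_lt_one hq0 hq1
        have h2 : Tendsto (fun m : ℕ => ((2 ^ m : ℕ) : ℝ) * q ^ (2 ^ m)) atTop (𝓝 0) :=
          h1.comp (tendsto_pow_atTop_atTop_of_one_lt (by norm_num : 1 < 2))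
        have h3 := h2.const_mul (2 ^ (v : ℝ) * s ^ (t : ℝ))
        rw [mul_zero] at h3
        refine h3.congr fun m => ?_
        have h4 : (s ^ 2 ^ m) ^ ((v : ℝ) - t) = q ^ 2 ^ m := by
          rw [hq, ← Real.rpow_natCast, ← Real.rpow_natCast, ← Real.rpow_mul hs0.le,
            ← Real.rpow_mul hs0.le, mul_comm]
        rw [h4]
        push_cast
        ring
      rw [← nonpos_iff_eq_zero]
      exact ge_of_tendsto' hlim hle
    rw [hausdorff_zero (by linarith) hz]
    exact ENNReal.zero_ne_top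
  · -- lower bound
    apply le_of_forall_lt_imp_le_of_dense
    intro u' hu'
    obtain ⟨u, hu1, hu2⟩ := ENNReal.lt_iff_exists_nnreal_btwn.1 hu'
    refine le_trans hu1.le ?_
    have hu2' : (u : ℝ) < t := by exact_mod_cast hu2
    have hu0' : (0 : ℝ) < u := by
      have h1 : (0 : ℝ≥0∞) < u := (zero_le).trans_lt hu1
      exact_mod_cast h1
    apply le_dimH_of_hausdorffMeasure_ne_zero
    have hpos : cont (u : ℝ) C ≠ 0 := by
      -- choose a deep descendant
      have hlim : Tendsto (fun k : ℕ => (s ^ 2 ^ k) ^ ((t : ℝ) - u)) atTop (𝓝 0) := by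
        have h1 : Tendsto (fun k : ℕ => s ^ 2 ^ k) atTop (𝓝 0) :=
          (tendsto_pow_atTop_nhds_zero_of_lt_one hs0.le (by linarith)).comp
            (tendsto_pow_atTop_atTop_of_one_lt (by norm_num : 1 < 2))
        have h2 := h1.rpow_const (p := (t : ℝ) - u) (Or.inr (by linarith))
        rwa [Real.zero_rpow (by linarith)] at h2
      obtain ⟨k, hk⟩ := (hlim.eventually (gt_mem_nhds (cst_pos (t : ℝ)))).exists
      obtain ⟨Q, z, σ, hQ, hσ, hsub⟩ := exists_desc ht' k hN
      have hσ' : σ ^ ((t : ℝ) - u) ≤ cst t :=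
        (Real.rpow_le_rpow hQ.pos.le hσ (by linarith)).trans hk.le
      set a := ENNReal.ofReal (cs' t * σ ^ (u : ℝ)) with ha
      have ha0 : 0 < a := by
        rw [ha, ENNReal.ofReal_pos]
        have := cs'_pos (t : ℝ)
        have := Real.rpow_pos_of_pos hQ.pos (u : ℝ)
        positivity
      intro hzero
      obtain ⟨O, hO, hCO, hOa⟩ := exists_open_lt hu0' (hzero.trans_lt ha0)
      have hex : ∃ m, T (t : ℝ) m P y s ⊆ O := by
        apply exists_subset_nhds_of_isCompact' (T_antitone P y s).directed_ge hTc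
          (fun m => (hTc m).isClosed)
        intro x hx
        exact hO.mem_nhds (hCO hx)
      obtain ⟨m, hm⟩ := hex
      have h1 : a ≤ cont (u : ℝ) (T (t : ℝ) m Q z σ) := T_lower ht' hu0' hu2' m hQ hσ'
      have h2 : T (t : ℝ) m Q z σ ⊆ O :=
        ((hsub m).trans (T_antitone P y s (Nat.le_add_right m k))).trans hm
      exact absurd (h1.trans (cont_mono h2)) (not_le.2 hOa)
    intro h
    apply hpos
    rw [← nonpos_iff_eq_zero, ← h]
    exact cont_le_hausdorff hu0' C

/-- Compact sets have compact subsets of every smaller Hausdorff dimension. -/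
theorem exists_compact_dimH {V : Set K} (hV : IsCompact V) (hne : V.Nonempty) {a : ℝ≥0∞}
    (ha : a ≤ dimH V) : ∃ C ⊆ V, IsCompact C ∧ C.Nonempty ∧ dimH C = a := by
  rcases ha.eq_or_lt with rfl | hlt
  · exact ⟨V, subset_rfl, hV, hne, rfl⟩
  rcases eq_or_ne a 0 with rfl | ha0
  · obtain ⟨x, hx⟩ := hne
    exact ⟨{x}, singleton_subset_iff.2 hx, isCompact_singleton, singleton_nonempty x,
      dimH_singleton x⟩
  · have hfin : a ≠ ⊤ := (hlt.trans_le le_top).ne
    lift a to ℝ≥0 using hfin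
    have ht : 0 < a := by
      rw [pos_iff_ne_zero]
      intro h
      exact ha0 (by rw [h]; rfl)
    have ht' : (0 : ℝ) < a := by exact_mod_cast ht
    borelize K
    have htop : μH[(a : ℝ)] V = ⊤ := hausdorffMeasure_of_lt_dimH hlt
    have hc : cont (a : ℝ) V ≠ 0 := by
      intro h
      rw [hausdorff_zero ht' h] at htop
      exact ENNReal.zero_ne_top htop
    have hF : (FullPts (a : ℝ) V (1 / 2)).Nonempty := by
      rw [Set.nonempty_iff_ne_empty]
      intro h
      have h1 := cont_diff_full ht' V (δ := 1 / 2) (by norm_num)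
      rw [h, sdiff_empty] at h1
      exact hc h1
    obtain ⟨x, hxV, ρ, hρ0, hρ1, hρ⟩ := hF
    have hN : Node (a : ℝ) (V ∩ closedBall x ρ) x ρ :=
      ⟨hV.inter_right isClosed_closedBall, inter_subset_right, hρ0, hρ1, hρ⟩
    obtain ⟨C, hCsub, hCc, hCd⟩ := node_result ht hN
    refine ⟨C, hCsub.trans inter_subset_left, hCc, ?_, hCd⟩
    rw [Set.nonempty_iff_ne_empty]
    intro h
    rw [h, dimH_empty] at hCd
    exact ha0 hCd.symm

end Pool.Agent.V1190.HD
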