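import Pool.Agent.V1190.HD.Cont

/-! One step of the construction: greedy packing of full balls. -/

open MeasureTheory Set Metric Filter Topology
open scoped ENNReal NNReal

namespace Pool.Agent.V1190.HD

variable {K : Type*} [MetricSpace K]

/-- Mass of the centres in a ball, restricted to small radii. -/
noncomputable def mass (t : ℝ) (G : Finset (K × ℝ)) (x : K) (r : ℝ) : ℝ := by
  classical exact ∑ g ∈ G with (dist g.1 x ≤ r ∧ g.2 ≤ r), g.2 ^ t

/-- Greedy selection. -/
lemma greedy (t : ℝ) (ht : 0 < t) (C : Finset (K × ℝ)) (hC : ∀ c ∈ C, 0 < c.2) :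
    ∃ G ⊆ C, (∀ g ∈ G, ∀ h ∈ G, g ≠ h → 4 * max g.2 h.2 < dist g.1 h.1) ∧
      (∀ (x : K) (r : ℝ), 0 ≤ r → mass t G x r ≤ 2 * r ^ t) ∧
      ∀ c ∈ C, (∃ g ∈ G, c.2 ≤ g.2 ∧ dist c.1 g.1 ≤ 4 * g.2) ∨
        ∃ (x : K) (r : ℝ), c.2 ≤ r ∧ dist c.1 x ≤ r ∧ r ^ t < mass t G x r := by
  classical
  induction C using Finset.induction_on_min_value (fun c : K × ℝ => c.2) with
  | empty =>
    refine ⟨∅, Finset.Subset.refl _, by simp, ?_, by simp⟩
    intro x r hr
    have : (0 : ℝ) ≤ r ^ t := Real.rpow_nonneg hr t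
    simp only [mass, Finset.filter_empty, Finset.sum_empty]
    linarith
  | insert a s has hmin ih =>
    obtain ⟨G, hGs, h1, h2, h3⟩ := ih (fun c hc => hC c (Finset.mem_insert_of_mem hc))
    have ha : 0 < a.2 := hC a (Finset.mem_insert_self _ _)
    have haG : a ∉ G := fun h => has (hGs h)
    by_cases hS1 : ∀ g ∈ G, 4 * g.2 < dist a.1 g.1
    · by_cases hS2 : ∀ (x : K) (r : ℝ), 0 ≤ r → mass t (insert a G) x r ≤ 2 * r ^ t
      · refine ⟨insert a G, Finset.insert_subset_insert _ hGs, ?_, hS2, ?_⟩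
        · intro g hg h hh hne
          rw [Finset.mem_insert] at hg hh
          rcases hg with rfl | hg <;> rcases hh with rfl | hh
          · exact absurd rfl hne
          · rw [max_eq_right (hmin h (hGs hh))]
            exact hS1 h hh
          · rw [max_eq_left (hmin g (hGs hg)), dist_comm]
            exact hS1 g hg
          · exact h1 g hg h hh hne
        · intro c hc
          rw [Finset.mem_insert] at hc
          rcases hc with rfl | hc
          · left
            refine ⟨c, Finset.mem_insert_self _ _, le_rfl, ?_⟩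
            rw [dist_self]
            linarith
          · rcases h3 c hc with ⟨g, hg, h4, h5⟩ | ⟨x, r, h4, h5, h6⟩
            · left
              exact ⟨g, Finset.mem_insert_of_mem hg, h4, h5⟩
            · right
              refine ⟨x, r, h4, h5, h6.trans_le ?_⟩
              unfold mass
              apply Finset.sum_le_sum_of_subset_of_nonneg
              · exact Finset.filter_subset_filter _ (Finset.subset_insert _ _)
              · intro g hg _
                rw [Finset.mem_filter, Finset.mem_insert] at hg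
                have : 0 < g.2 := by
                  rcases hg.1 with rfl | h
                  · exact ha
                  · exact hC g (Finset.mem_insert_of_mem (hGs h))
                exact Real.rpow_nonneg this.le t
      · push Not at hS2
        obtain ⟨x, r, hr, hS2⟩ := hS2
        refine ⟨G, hGs.trans (Finset.subset_insert _ _), h1, h2, ?_⟩
        intro c hc
        rw [Finset.mem_insert] at hc
        rcases hc with rfl | hc
        · right
          by_cases hcond : dist c.1 x ≤ r ∧ c.2 ≤ r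
          · refine ⟨x, r, hcond.2, hcond.1, ?_⟩
            have hsum : mass t (insert c G) x r = c.2 ^ t + mass t G x r := by
              unfold mass
              rw [Finset.filter_insert, if_pos hcond, Finset.sum_insert]
              intro h
              exact haG (Finset.mem_filter.1 h).1
            have h7 : c.2 ^ t ≤ r ^ t := Real.rpow_le_rpow ha.le hcond.2 ht.le
            rw [hsum] at hS2
            linarith
          · exfalso
            have hsum : mass t (insert c G) x r = mass t G x r := by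
              unfold mass
              rw [Finset.filter_insert, if_neg hcond]
            rw [hsum] at hS2
            exact absurd (h2 x r hr) (not_le.2 hS2)
        · exact h3 c hc
    · push Not at hS1
      obtain ⟨g, hg, hgd⟩ := hS1
      refine ⟨G, hGs.trans (Finset.subset_insert _ _), h1, h2, ?_⟩
      intro c hc
      rw [Finset.mem_insert] at hc
      rcases hc with rfl | hc
      · left
        exact ⟨g, hg, hmin g (hGs hg), hgd⟩
      · exact h3 c hc

/-- The selected family carries the content. -/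
lemma cont_le_greedy {t : ℝ} (ht : 0 < t) {C : Finset (K × ℝ)} (hC : ∀ c ∈ C, 0 < c.2)
    {G : Finset (K × ℝ)} (hG : G ⊆ C)
    (h3 : ∀ c ∈ C, (∃ g ∈ G, c.2 ≤ g.2 ∧ dist c.1 g.1 ≤ 4 * g.2) ∨
        ∃ (x : K) (r : ℝ), c.2 ≤ r ∧ dist c.1 x ≤ r ∧ r ^ t < mass t G x r)
    {P : Set K} (hP : P ⊆ ⋃ c ∈ C, closedBall c.1 c.2) :
    cont t P ≤ ENNReal.ofReal ((10 ^ t + 14 ^ t) * ∑ g ∈ G, g.2 ^ t) := by
  classical
  have hGpos : ∀ g ∈ G, 0 < g.2 := fun g hg => hC g (hG hg)
  set C2 := C.filter (fun c => ∃ (x : K) (r : ℝ), c.2 ≤ r ∧ dist c.1 x ≤ r ∧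
    r ^ t < mass t G x r) with hC2
  have hx : ∀ c : K × ℝ, ∃ z : K × ℝ, c ∈ C2 → c.2 ≤ z.2 ∧ dist c.1 z.1 ≤ z.2 ∧
      z.2 ^ t < mass t G z.1 z.2 := by
    intro c
    by_cases h : c ∈ C2
    · obtain ⟨x, r, h1, h2, h4⟩ := (Finset.mem_filter.1 h).2
      exact ⟨(x, r), fun _ => ⟨h1, h2, h4⟩⟩
    · exact ⟨c, fun h' => absurd h' h⟩
  choose z hz using hx
  -- Vitali
  obtain ⟨R, hR⟩ : ∃ R, ∀ a ∈ (C2 : Set (K × ℝ)), (z a).2 ≤ R := by
    rcases (C2.finite_toSet.image (fun a => (z a).2)).bddAbove with ⟨R, hR⟩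
    exact ⟨R, fun a ha => hR (mem_image_of_mem _ ha)⟩
  obtain ⟨u, huC2, hdisj, hcov⟩ := Vitali.exists_disjoint_subfamily_covering_enlargement
    (fun c : K × ℝ => closedBall (z c).1 (z c).2) (C2 : Set (K × ℝ)) (fun c => (z c).2) 2
    one_lt_two
    (fun a ha => (hC a (Finset.mem_filter.1 ha).1).le.trans (hz a ha).1) R hR
    (fun a ha => ⟨(z a).1, mem_closedBall_self
      ((hC a (Finset.mem_filter.1 ha).1).le.trans (hz a ha).1)⟩)
  have hufin : u.Finite := C2.finite_toSet.subset huC2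
  set J := hufin.toFinset with hJ
  have hJu : ∀ a, a ∈ J ↔ a ∈ u := fun a => hufin.mem_toFinset
  have hJC2 : ∀ a ∈ J, a ∈ C2 := fun a ha => huC2 ((hJu a).1 ha)
  have hcover : P ⊆ (⋃ g ∈ G, closedBall g.1 (5 * g.2)) ∪
      ⋃ a ∈ J, closedBall (z a).1 (7 * (z a).2) := by
    intro p hp
    obtain ⟨c, hc, hpc⟩ := mem_iUnion₂.1 (hP hp)
    rw [mem_closedBall] at hpc
    rcases h3 c hc with ⟨g, hg, h4, h5⟩ | h4
    · left
      refine mem_iUnion₂.2 ⟨g, hg, ?_⟩
      rw [mem_closedBall]
      have := dist_triangle p c.1 g.1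
      linarith
    · right
      have hc2 : c ∈ C2 := Finset.mem_filter.2 ⟨hc, h4⟩
      obtain ⟨b, hb, ⟨q, hq1, hq2⟩, hle⟩ := hcov c hc2
      refine mem_iUnion₂.2 ⟨b, (hJu b).2 hb, ?_⟩
      rw [mem_closedBall] at hq1 hq2 ⊢
      obtain ⟨h6, h7, _⟩ := hz c hc2
      have h8 := dist_triangle p c.1 (z b).1
      have h9 := dist_triangle c.1 (z c).1 (z b).1
      have h10 := dist_triangle_left (z c).1 (z b).1 q
      linarith
  have hz0 : ∀ a ∈ J, 0 < (z a).2 := fun a ha =>
    (hC a (Finset.mem_filter.1 (hJC2 a ha)).1).trans_le (hz a (hJC2 a ha)).1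
  have hpart1 : cont t (⋃ g ∈ G, closedBall g.1 (5 * g.2)) ≤
      ENNReal.ofReal (10 ^ t * ∑ g ∈ G, g.2 ^ t) := by
    refine (cont_biUnion_finset_le ht G _).trans ?_
    rw [Finset.mul_sum, ENNReal.ofReal_sum_of_nonneg]
    · refine Finset.sum_le_sum fun g hg => ?_
      have hg0 := hGpos g hg
      refine (cont_le_ball ht (x := g.1) (by linarith : (0:ℝ) ≤ 5 * g.2) subset_rfl).trans ?_
      apply ENNReal.ofReal_le_ofReal
      rw [← Real.mul_rpow (by norm_num) hg0.le]
      apply le_of_eq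
      congr 1
      ring
    · intro g hg
      have hg0 := hGpos g hg
      positivity
  have hpart2 : cont t (⋃ a ∈ J, closedBall (z a).1 (7 * (z a).2)) ≤
      ENNReal.ofReal (14 ^ t * ∑ g ∈ G, g.2 ^ t) := by
    refine (cont_biUnion_finset_le ht J _).trans ?_
    have h4 : ∑ a ∈ J, cont t (closedBall (z a).1 (7 * (z a).2)) ≤
        ENNReal.ofReal (14 ^ t * ∑ a ∈ J, (z a).2 ^ t) := by
      rw [Finset.mul_sum, ENNReal.ofReal_sum_of_nonneg]
      · refine Finset.sum_le_sum fun a ha => ?_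
        have ha0 := hz0 a ha
        refine (cont_le_ball ht (x := (z a).1) (by linarith : (0:ℝ) ≤ 7 * (z a).2)
          subset_rfl).trans ?_
        apply ENNReal.ofReal_le_ofReal
        rw [← Real.mul_rpow (by norm_num) ha0.le]
        apply le_of_eq
        congr 1
        ring
      · intro a ha
        have ha0 := hz0 a ha
        positivity
    refine h4.trans (ENNReal.ofReal_le_ofReal ?_)
    apply mul_le_mul_of_nonneg_left _ (by positivity)
    calc ∑ a ∈ J, (z a).2 ^ t ≤ ∑ a ∈ J, mass t G (z a).1 (z a).2 :=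
          Finset.sum_le_sum fun a ha => (hz a (hJC2 a ha)).2.2.le
      _ = ∑ g ∈ J.biUnion (fun a => G.filter
            (fun g => dist g.1 (z a).1 ≤ (z a).2 ∧ g.2 ≤ (z a).2)), g.2 ^ t := by
          unfold mass
          rw [Finset.sum_biUnion]
          intro a ha b hb hab
          rw [Function.onFun, Finset.disjoint_left]
          intro g hg1 hg2
          have h5 := hdisj ((hJu a).1 ha) ((hJu b).1 hb) hab
          rw [Function.onFun, Set.disjoint_left] at h5
          exact h5 (mem_closedBall.2 (Finset.mem_filter.1 hg1).2.1)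
            (mem_closedBall.2 (Finset.mem_filter.1 hg2).2.1)
      _ ≤ ∑ g ∈ G, g.2 ^ t := by
          apply Finset.sum_le_sum_of_subset_of_nonneg
          · rw [Finset.biUnion_subset]
            intro a _
            exact Finset.filter_subset _ _
          · intro g hg _
            exact Real.rpow_nonneg (hGpos g hg).le t
  calc cont t P ≤ _ := cont_mono hcover
    _ ≤ _ := cont_union_le ht _ _
    _ ≤ _ := add_le_add hpart1 hpart2
    _ = ENNReal.ofReal ((10 ^ t + 14 ^ t) * ∑ g ∈ G, g.2 ^ t) := by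
      have hs : 0 ≤ ∑ g ∈ G, g.2 ^ t :=
        Finset.sum_nonneg fun g hg => Real.rpow_nonneg (hGpos g hg).le t
      rw [← ENNReal.ofReal_add (by positivity) (by positivity)]
      congr 1
      ring

/-- Points of `P` at which some ball of radius at most `δ` is full. -/
def FullPts (t : ℝ) (P : Set K) (δ : ℝ) : Set K :=
  {x ∈ P | ∃ ρ : ℝ, 0 < ρ ∧ ρ ≤ δ ∧ ENNReal.ofReal (2⁻¹ * ρ ^ t) ≤ cont t (P ∩ closedBall x ρ)}

lemma cont_diff_full [CompactSpace K] {t : ℝ} (ht : 0 < t) (P : Set K) {δ : ℝ} (hδ : 0 < δ) :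
    cont t (P \ FullPts t P δ) = 0 := by
  set N := P \ FullPts t P δ with hN
  -- every small piece loses half
  have hsmall : ∀ E ⊆ N, ediam E ≤ ENNReal.ofReal δ → cont t E ≤ 2⁻¹ * ediam E ^ t := by
    intro E hE hd
    rcases E.eq_empty_or_nonempty with rfl | ⟨x, hx⟩
    · rw [cont_empty ht]; exact zero_le
    · have hfin : ediam E ≠ ⊤ := ne_top_of_le_ne_top ENNReal.ofReal_ne_top hd
      set ρ := (ediam E).toReal with hρ
      have hρE : ENNReal.ofReal ρ = ediam E := ENNReal.ofReal_toReal hfin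
      have hρ0 : 0 ≤ ρ := ENNReal.toReal_nonneg
      have hρδ : ρ ≤ δ := by
        have := ENNReal.toReal_mono ENNReal.ofReal_ne_top hd
        rwa [ENNReal.toReal_ofReal hδ.le] at this
      rcases hρ0.eq_or_lt with h0 | h0
      · have h1 : ediam E = 0 := by rw [← hρE, ← h0, ENNReal.ofReal_zero]
        refine (cont_le_ediam ht E).trans ?_
        rw [h1, ENNReal.zero_rpow_of_pos ht]
        exact zero_le
      · have hsub : E ⊆ P ∩ closedBall x ρ := by
          intro y hy
          refine ⟨(hE hy).1, ?_⟩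
          rw [mem_closedBall]
          have h1 : edist y x ≤ ediam E := edist_le_ediam_of_mem hy hx
          rw [← hρE, edist_dist] at h1
          exact (ENNReal.ofReal_le_ofReal_iff hρ0).1 h1
        have hnf : ¬ ENNReal.ofReal (2⁻¹ * ρ ^ t) ≤ cont t (P ∩ closedBall x ρ) := by
          intro h
          exact (hE hx).2 ⟨(hE hx).1, ρ, h0, hρδ, h⟩
        refine ((cont_mono hsub).trans (not_le.1 hnf).le).trans ?_
        rw [ENNReal.ofReal_mul (by norm_num), ← ENNReal.ofReal_rpow_of_nonneg hρ0 ht.le, hρE,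
          ENNReal.ofReal_inv_of_pos (by norm_num)]
        simp
  have hzero : ∀ E ⊆ N, ediam E ≤ ENNReal.ofReal δ → cont t E = 0 := by
    intro E hE hd
    have hle : cont t E ≤ 2⁻¹ * cont t E := by
      conv_rhs => rw [cont]
      rw [ENNReal.mul_iInf_of_ne (by simp) (by simp)]
      refine le_iInf fun U => ?_
      rw [ENNReal.mul_iInf_of_ne (by simp) (by simp)]
      refine le_iInf fun hU => ?_
      rw [← ENNReal.tsum_mul_left]
      have h1 : E ⊆ ⋃ n, (U n ∩ E) := by
        rw [← iUnion_inter]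
        exact subset_inter hU subset_rfl
      refine ((cont_mono h1).trans (cont_iUnion_le ht _)).trans ?_
      refine ENNReal.tsum_le_tsum fun n => ?_
      refine (hsmall _ (inter_subset_right.trans hE)
        ((ediam_mono inter_subset_right).trans hd)).trans ?_
      gcongr
      exact inter_subset_left
    have hfin : cont t E ≠ ⊤ := by
      refine ne_top_of_le_ne_top ?_ ((cont_le_ediam ht E).trans
        (ENNReal.rpow_le_rpow hd ht.le))
      exact ENNReal.rpow_ne_top_of_nonneg ht.le ENNReal.ofReal_ne_top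
    by_contra hne
    have h2 := ENNReal.half_lt_self hne hfin
    rw [div_eq_mul_inv, mul_comm] at h2
    exact absurd hle (not_le.2 h2)
  obtain ⟨s, -, hsfin, hs⟩ := (isCompact_univ (X := K)).finite_cover_balls
    (e := δ / 2) (by linarith)
  have hcov : N ⊆ ⋃ x ∈ hsfin.toFinset, (N ∩ ball x (δ / 2)) := by
    intro y hy
    obtain ⟨x, hx, hyx⟩ := mem_iUnion₂.1 (hs (mem_univ y))
    exact mem_iUnion₂.2 ⟨x, hsfin.mem_toFinset.2 hx, hy, hyx⟩
  rw [← nonpos_iff_eq_zero]
  refine ((cont_mono hcov).trans (cont_biUnion_finset_le ht _ _)).trans ?_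
  rw [nonpos_iff_eq_zero]
  apply Finset.sum_eq_zero
  intro x _
  apply hzero _ inter_subset_left
  refine (ediam_mono (inter_subset_right.trans ball_subset_closedBall)).trans ?_
  refine (ediam_closedBall_le x (by linarith)).trans ?_
  rw [show 2 * (δ / 2) = δ by ring]

/-- A node: a compact set inside a small ball with content comparable to the ball. -/
structure Node (t : ℝ) (P : Set K) (y : K) (s : ℝ) : Prop where
  comp : IsCompact P
  sub : P ⊆ closedBall y s
  pos : 0 < s
  small : s ≤ 1 / 2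
  full : ENNReal.ofReal (2⁻¹ * s ^ t) ≤ cont t P

/-- The packing constant. -/
noncomputable def cst (t : ℝ) : ℝ := (4 * (10 ^ t + 14 ^ t))⁻¹

lemma cst_pos (t : ℝ) : 0 < cst t := by
  unfold cst
  positivity

lemma cst_le (t : ℝ) (ht : 0 < t) : cst t ≤ 1 := by
  unfold cst
  apply inv_le_one_of_one_le₀
  have h1 : (1:ℝ) ≤ 10 ^ t := Real.one_le_rpow (by norm_num) ht.le
  have h2 : (0:ℝ) ≤ 14 ^ t := by positivity
  linarith

lemma exists_children [CompactSpace K] {t : ℝ} (ht : 0 < t) {P : Set K} {y : K} {s : ℝ}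
    (hN : Node t P y s) :
    ∃ G : Finset (K × ℝ),
      (∀ g ∈ G, g.2 ≤ s ^ 2 ∧ Node t (P ∩ closedBall g.1 g.2) g.1 g.2) ∧
      (∀ g ∈ G, ∀ h ∈ G, g ≠ h → 4 * max g.2 h.2 < dist g.1 h.1) ∧
      (∀ (x : K) (r : ℝ), 0 ≤ r → mass t G x r ≤ 2 * r ^ t) ∧
      ∑ g ∈ G, g.2 ^ t ≤ 2 * s ^ t ∧
      cst t * s ^ t ≤ ∑ g ∈ G, g.2 ^ t := by
  classical
  have hs0 := hN.pos
  have hs2 : 0 < s ^ 2 := by positivity
  have hst : 0 < s ^ t := Real.rpow_pos_of_pos hs0 t
  have hs2s : s ^ 2 ≤ s := by
    have := hN.small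
    nlinarith
  have hz := cont_diff_full ht P hs2
  have hlt : cont t (P \ FullPts t P (s ^ 2)) < ENNReal.ofReal (4⁻¹ * s ^ t) := by
    rw [hz]
    exact ENNReal.ofReal_pos.2 (by positivity)
  obtain ⟨O, hO, hNO, hOc⟩ := exists_open_lt ht hlt
  set P' := P \ O with hP'
  have hP'c : IsCompact P' := hN.comp.diff hO
  have hP'F : ∀ x ∈ P', x ∈ FullPts t P (s ^ 2) := by
    intro x hx
    by_contra h
    exact hx.2 (hNO ⟨hx.1, h⟩)
  have hlow : ENNReal.ofReal (4⁻¹ * s ^ t) ≤ cont t P' := by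
    have h1 : cont t P ≤ cont t P' + cont t O := by
      refine le_trans (cont_mono ?_) (cont_union_le ht _ _)
      intro x hx
      by_cases h : x ∈ O
      · exact Or.inr h
      · exact Or.inl ⟨hx, h⟩
    have h2 : ENNReal.ofReal (4⁻¹ * s ^ t) + ENNReal.ofReal (4⁻¹ * s ^ t) ≤
        cont t P' + ENNReal.ofReal (4⁻¹ * s ^ t) := by
      rw [← ENNReal.ofReal_add (by positivity) (by positivity)]
      calc ENNReal.ofReal (4⁻¹ * s ^ t + 4⁻¹ * s ^ t) = ENNReal.ofReal (2⁻¹ * s ^ t) := by
            congr 1; ring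
        _ ≤ cont t P := hN.full
        _ ≤ _ := h1
        _ ≤ _ := by gcongr
    exact (ENNReal.add_le_add_iff_right ENNReal.ofReal_ne_top).1 h2
  choose! ρ hρ0 hρs hρf using fun x (hx : x ∈ P') => (hP'F x hx).2
  obtain ⟨T, hTc⟩ := hP'c.elim_nhds_subcover' (fun x _ => ball x (ρ x))
    (fun x hx => ball_mem_nhds x (hρ0 x hx))
  set C : Finset (K × ℝ) := T.image (fun x : P' => ((x : K), ρ (x : K))) with hC
  have hCm : ∀ c ∈ C, c.1 ∈ P' ∧ c.2 = ρ c.1 := by
    intro c hc
    rw [hC, Finset.mem_image] at hc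
    obtain ⟨x, _, rfl⟩ := hc
    exact ⟨x.2, rfl⟩
  have hC0 : ∀ c ∈ C, 0 < c.2 := by
    intro c hc
    rw [(hCm c hc).2]
    exact hρ0 _ (hCm c hc).1
  obtain ⟨G, hGC, h1, h2, h3⟩ := greedy t ht C hC0
  have hcovC : P' ⊆ ⋃ c ∈ C, closedBall c.1 c.2 := by
    intro x hx
    obtain ⟨z, hz, hxz⟩ := mem_iUnion₂.1 (hTc hx)
    refine mem_iUnion₂.2 ⟨((z : K), ρ z), Finset.mem_image_of_mem _ hz, ?_⟩
    exact ball_subset_closedBall hxz
  have h4 := cont_le_greedy ht hC0 hGC h3 hcovC
  have hG0 : ∀ g ∈ G, 0 < g.2 := fun g hg => hC0 g (hGC hg)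
  have hsum0 : 0 ≤ ∑ g ∈ G, g.2 ^ t :=
    Finset.sum_nonneg fun g hg => Real.rpow_nonneg (hG0 g hg).le t
  have hG2 : ∀ g ∈ G, g.2 ≤ s ^ 2 := by
    intro g hg
    rw [(hCm g (hGC hg)).2]
    exact hρs _ (hCm g (hGC hg)).1
  refine ⟨G, ?_, h1, h2, ?_, ?_⟩
  · intro g hg
    obtain ⟨hgP, hgr⟩ := hCm g (hGC hg)
    refine ⟨hG2 g hg, ?_, inter_subset_right, hG0 g hg,
      ((hG2 g hg).trans hs2s).trans hN.small, ?_⟩
    · exact hN.comp.inter_right isClosed_closedBall
    · have := hρf g.1 hgP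
      rw [hgr]
      exact this
  · have h5 := h2 y s hs0.le
    refine le_trans (le_of_eq ?_) h5
    unfold mass
    rw [Finset.filter_true_of_mem]
    intro g hg
    exact ⟨mem_closedBall.1 (hN.sub (hCm g (hGC hg)).1.1), (hG2 g hg).trans hs2s⟩
  · have h5 := hlow.trans h4
    rw [ENNReal.ofReal_le_ofReal_iff (by positivity)] at h5
    unfold cst
    have h6 : (0:ℝ) < 10 ^ t + 14 ^ t := by positivity
    rw [inv_mul_le_iff₀ (by positivity)]
    linarith

end Pool.Agent.V1190.HD
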