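import Pool.Agent.V1190.HD.Step

/-! The tree of full balls, and compact subsets of prescribed Hausdorff dimension. -/

open MeasureTheory Set Metric Filter Topology
open scoped ENNReal NNReal

namespace Pool.Agent.V1190.HD

variable {K : Type*} [MetricSpace K] [CompactSpace K]

open Classical in
/-- The children of a node. -/
noncomputable def kids (t : ℝ) (P : Set K) (y : K) (s : ℝ) : Finset (K × ℝ) :=
  if h : 0 < t ∧ Node t P y s then (exists_children h.1 h.2).choose else ∅

lemma kids_spec {t : ℝ} (ht : 0 < t) {P : Set K} {y : K} {s : ℝ} (hN : Node t P y s) :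
      (∀ g ∈ kids t P y s, g.2 ≤ s ^ 2 ∧ Node t (P ∩ closedBall g.1 g.2) g.1 g.2) ∧
      (∀ g ∈ kids t P y s, ∀ h ∈ kids t P y s, g ≠ h → 4 * max g.2 h.2 < dist g.1 h.1) ∧
      (∀ (x : K) (r : ℝ), 0 ≤ r → mass t (kids t P y s) x r ≤ 2 * r ^ t) ∧
      ∑ g ∈ kids t P y s, g.2 ^ t ≤ 2 * s ^ t ∧
      cst t * s ^ t ≤ ∑ g ∈ kids t P y s, g.2 ^ t := by
  unfold kids
  rw [dif_pos ⟨ht, hN⟩]
  exact (exists_children ht hN).choose_spec

/-- Union of the descendants at depth `m`. -/
noncomputable def T (t : ℝ) : ℕ → Set K → K → ℝ → Set K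
  | 0, P, _, _ => P
  | (m + 1), P, y, s => ⋃ g ∈ kids t P y s, T t m (P ∩ closedBall g.1 g.2) g.1 g.2

lemma T_compact {t : ℝ} (ht : 0 < t) (m : ℕ) : ∀ {P : Set K} {y : K} {s : ℝ},
    Node t P y s → IsCompact (T t m P y s) := by
  induction m with
  | zero => intro P y s hN; exact hN.comp
  | succ m ih =>
    intro P y s hN
    exact (kids t P y s).isCompact_biUnion fun g hg => ih ((kids_spec ht hN).1 g hg).2

lemma T_sub {t : ℝ} (m : ℕ) : ∀ {P : Set K} {y : K} {s : ℝ}, T t m P y s ⊆ P := by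
  induction m with
  | zero => intro P y s; exact subset_rfl
  | succ m ih =>
    intro P y s
    exact iUnion₂_subset fun g _ => ih.trans inter_subset_left

lemma T_succ_sub {t : ℝ} (m : ℕ) : ∀ {P : Set K} {y : K} {s : ℝ},
    T t (m + 1) P y s ⊆ T t m P y s := by
  induction m with
  | zero => intro P y s; exact T_sub 1
  | succ m ih =>
    intro P y s
    exact iUnion₂_mono fun g _ => ih

lemma T_antitone {t : ℝ} (P : Set K) (y : K) (s : ℝ) : Antitone fun m => T t m P y s :=
  antitone_nat_of_succ_le fun m => T_succ_sub m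

/-- Upper bound on contents. -/
lemma T_upper {t v : ℝ} (ht : 0 < t) (hv : t < v) (m : ℕ) : ∀ {P : Set K} {y : K} {s : ℝ},
    Node t P y s → cont v (T t m P y s) ≤
      ENNReal.ofReal (2 ^ m * (2 ^ v * (s ^ t * (s ^ 2 ^ m) ^ (v - t)))) := by
  induction m with
  | zero =>
    intro P y s hN
    refine (cont_le_ball (ht.trans hv) hN.pos.le hN.sub).trans ?_
    apply ENNReal.ofReal_le_ofReal
    rw [Real.mul_rpow (by norm_num) hN.pos.le]
    simp only [pow_zero, pow_one, one_mul]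
    rw [← Real.rpow_add hN.pos]
    simp
  | succ m ih =>
    intro P y s hN
    obtain ⟨h1, -, -, h2, -⟩ := kids_spec ht hN
    have hs := hN.pos
    refine (cont_biUnion_finset_le (ht.trans hv) _ _).trans ?_
    calc ∑ g ∈ kids t P y s, cont v (T t m (P ∩ closedBall g.1 g.2) g.1 g.2)
        ≤ ∑ g ∈ kids t P y s,
          ENNReal.ofReal (2 ^ m * (2 ^ v * (g.2 ^ t * ((s ^ 2) ^ 2 ^ m) ^ (v - t)))) := by
          refine Finset.sum_le_sum fun g hg => ?_
          obtain ⟨h3, h4⟩ := h1 g hg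
          refine (ih h4).trans (ENNReal.ofReal_le_ofReal ?_)
          have hg0 := h4.pos
          gcongr
      _ = ENNReal.ofReal (∑ g ∈ kids t P y s,
          (2 ^ m * (2 ^ v * (g.2 ^ t * ((s ^ 2) ^ 2 ^ m) ^ (v - t))))) := by
          rw [ENNReal.ofReal_sum_of_nonneg]
          intro g hg
          have := (h1 g hg).2.pos
          positivity
      _ = ENNReal.ofReal ((2 ^ m * (2 ^ v * ((s ^ 2) ^ 2 ^ m) ^ (v - t))) *
          ∑ g ∈ kids t P y s, g.2 ^ t) := by
          rw [Finset.mul_sum]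
          congr 1
          refine Finset.sum_congr rfl fun g _ => ?_
          ring
      _ ≤ ENNReal.ofReal ((2 ^ m * (2 ^ v * ((s ^ 2) ^ 2 ^ m) ^ (v - t))) * (2 * s ^ t)) := by
          apply ENNReal.ofReal_le_ofReal
          gcongr
      _ = _ := by
          congr 1
          rw [← pow_mul s 2 (2 ^ m), ← pow_succ' 2 m]
          ring

/-- The constant in the lower bound. -/
noncomputable def cs' (t : ℝ) : ℝ := cst t * 2 ^ (-(2 * t + 1))

lemma cs'_pos (t : ℝ) : 0 < cs' t := by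
  unfold cs'
  have := cst_pos t
  positivity

omit [CompactSpace K] in
lemma core {t u : ℝ} (hu0 : 0 < u) (hut : u < t) {P : Set K} {y : K} {s : ℝ}
    (hN : Node t P y s) (G : Finset (K × ℝ)) (hG : ∀ g ∈ G, 0 < g.2 ∧ g.2 ≤ s ^ 2)
    (hsep : ∀ g ∈ G, ∀ h ∈ G, g ≠ h → 4 * max g.2 h.2 < dist g.1 h.1)
    (hmass : ∀ (x : K) (r : ℝ), 0 ≤ r → mass t G x r ≤ 2 * r ^ t)
    (hlow : cst t * s ^ t ≤ ∑ g ∈ G, g.2 ^ t)
    (W : K × ℝ → Set K) (hW : ∀ g ∈ G, W g ⊆ P ∩ closedBall g.1 g.2)
    (hWc : ∀ g ∈ G, ENNReal.ofReal (cs' t * g.2 ^ u) ≤ cont u (W g))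
    (hs : s ^ (t - u) ≤ cst t) :
    ENNReal.ofReal (cs' t * s ^ u) ≤ cont u (⋃ g ∈ G, W g) := by
  classical
  have hs0 := hN.pos
  have hc := cst_pos t
  unfold cont
  refine le_iInf₂ fun E hE => ?_
  set D : ℕ → Set K := fun n => E n ∩ P with hD
  have hDE : ∑' n, ediam (D n) ^ u ≤ ∑' n, ediam (E n) ^ u := by
    refine ENNReal.tsum_le_tsum fun n => ?_
    exact ENNReal.rpow_le_rpow (ediam_mono inter_subset_left) hu0.le
  refine le_trans ?_ hDE
  set met : ℕ → Finset (K × ℝ) := fun n => G.filter (fun g => (D n ∩ W g).Nonempty) with hmet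
  set lam : ℝ := 2 ^ (-(2 * t + 1)) * s ^ (-(t - u)) with hlam
  have hlam0 : 0 < lam := by positivity
  have hdfin : ∀ n, ediam (D n) ≤ ENNReal.ofReal (2 * s) := fun n =>
    (ediam_mono (inter_subset_right.trans hN.sub)).trans (ediam_closedBall_le y hs0.le)
  -- claim A
  have hA : ∀ n, (∃ g ∈ met n, ∃ h ∈ met n, g ≠ h) →
      ENNReal.ofReal (lam * ∑ g ∈ met n, g.2 ^ t) ≤ ediam (D n) ^ u := by
    rintro n ⟨g0, hg0, h0, hh0, hne⟩
    have hfin : ediam (D n) ≠ ⊤ := ne_top_of_le_ne_top ENNReal.ofReal_ne_top (hdfin n)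
    set d := (ediam (D n)).toReal with hd
    have hdE : ENNReal.ofReal d = ediam (D n) := ENNReal.ofReal_toReal hfin
    have hd0 : 0 ≤ d := ENNReal.toReal_nonneg
    have hd2s : d ≤ 2 * s := by
      have := ENNReal.toReal_mono ENNReal.ofReal_ne_top (hdfin n)
      rwa [ENNReal.toReal_ofReal (by linarith)] at this
    have hclose : ∀ g ∈ met n, ∀ h ∈ met n, dist g.1 h.1 ≤ g.2 + d + h.2 := by
      intro g hg h hh
      obtain ⟨hgG, w, hw1, hw2⟩ := Finset.mem_filter.1 hg
      obtain ⟨hhG, w', hw1', hw2'⟩ := Finset.mem_filter.1 hh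
      have h1 : dist w g.1 ≤ g.2 := (hW g hgG hw2).2
      have h2 : dist w' h.1 ≤ h.2 := (hW h hhG hw2').2
      have h3 : dist w w' ≤ d := by
        have h4 : edist w w' ≤ ediam (D n) := edist_le_ediam_of_mem hw1 hw1'
        rw [← hdE, edist_dist] at h4
        exact (ENNReal.ofReal_le_ofReal_iff hd0).1 h4
      have h4 := dist_triangle g.1 w h.1
      have h5 := dist_triangle w w' h.1
      rw [dist_comm g.1 w] at h4
      linarith
    have hmax : ∀ g ∈ met n, ∀ h ∈ met n, g ≠ h → 2 * g.2 < d := by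
      intro g hg h hh hne
      have h1 := hsep g (Finset.mem_filter.1 hg).1 h (Finset.mem_filter.1 hh).1 hne
      have h2 := hclose g hg h hh
      have h3 := le_max_left g.2 h.2
      have h4 := le_max_right g.2 h.2
      linarith
    have hall : ∀ g ∈ met n, 2 * g.2 < d := by
      intro g hg
      by_cases h : g = g0
      · rw [h]; exact hmax g0 hg0 h0 hh0 hne
      · exact hmax g hg g0 hg0 h
    have hsum : ∑ g ∈ met n, g.2 ^ t ≤ 2 * (2 * d) ^ t := by
      refine le_trans ?_ (hmass g0.1 (2 * d) (by linarith))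
      unfold mass
      apply Finset.sum_le_sum_of_subset_of_nonneg
      · intro g hg
        rw [Finset.mem_filter]
        have h1 := hclose g hg g0 hg0
        have h2 := hall g hg
        have h3 := hall g0 hg0
        exact ⟨(Finset.mem_filter.1 hg).1, by linarith, by linarith⟩
      · intro g hg _
        exact Real.rpow_nonneg (hG g (Finset.mem_filter.1 hg).1).1.le t
    have hdpos : 0 < d := by
      have h1 := hall g0 hg0
      have h2 := (hG g0 (Finset.mem_filter.1 hg0).1).1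
      linarith
    rw [← hdE, ENNReal.ofReal_rpow_of_nonneg hd0 hu0.le]
    apply ENNReal.ofReal_le_ofReal
    calc lam * ∑ g ∈ met n, g.2 ^ t ≤ lam * (2 * (2 * d) ^ t) := by gcongr
      _ = (2 ^ (-(2 * t + 1)) * s ^ (-(t - u))) * (2 * (2 ^ t * (d ^ u * d ^ (t - u)))) := by
          rw [hlam, Real.mul_rpow (by norm_num) hd0, ← Real.rpow_add hdpos u (t - u)]
          congr 5
          ring
      _ ≤ (2 ^ (-(2 * t + 1)) * s ^ (-(t - u))) *
            (2 * (2 ^ t * (d ^ u * (2 ^ (t - u) * s ^ (t - u))))) := by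
          have : d ^ (t - u) ≤ 2 ^ (t - u) * s ^ (t - u) := by
            rw [← Real.mul_rpow (by norm_num) hs0.le]
            exact Real.rpow_le_rpow hd0 hd2s (by linarith)
          gcongr
      _ = (2 ^ (-(2 * t + 1)) * 2 ^ (1 : ℝ) * 2 ^ t * 2 ^ (t - u)) *
            (s ^ (-(t - u)) * s ^ (t - u)) * d ^ u := by
          rw [Real.rpow_one]
          ring
      _ = 2 ^ (-u) * d ^ u := by
          rw [← Real.rpow_add hs0, ← Real.rpow_add (by norm_num), ← Real.rpow_add (by norm_num),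
            ← Real.rpow_add (by norm_num)]
          rw [show -(t - u) + (t - u) = 0 by ring, Real.rpow_zero, mul_one]
          congr 2
          ring
      _ ≤ 1 * d ^ u := by
          gcongr
          exact Real.rpow_le_one_of_one_le_of_nonpos (by norm_num) (by linarith)
      _ = d ^ u := one_mul _
  -- claim B
  have hB : ∀ g ∈ G, lam * g.2 ^ t ≤ cs' t * g.2 ^ u := by
    intro g hg
    obtain ⟨hg0, hgs⟩ := hG g hg
    have h1 : g.2 ^ t = g.2 ^ u * g.2 ^ (t - u) := by
      rw [← Real.rpow_add hg0]; congr 1; ring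
    have h2 : g.2 ^ (t - u) ≤ s ^ (t - u) * s ^ (t - u) := by
      rw [← Real.mul_rpow hs0.le hs0.le, ← sq]
      exact Real.rpow_le_rpow hg0.le hgs (by linarith)
    have h3 : s ^ (-(t - u)) * s ^ (t - u) = 1 := by
      rw [← Real.rpow_add hs0]; simp
    calc lam * g.2 ^ t = (2 ^ (-(2 * t + 1)) * s ^ (-(t - u))) * (g.2 ^ u * g.2 ^ (t - u)) := by
          rw [h1]
      _ ≤ (2 ^ (-(2 * t + 1)) * s ^ (-(t - u))) *
            (g.2 ^ u * (s ^ (t - u) * s ^ (t - u))) := by gcongr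
      _ = (s ^ (-(t - u)) * s ^ (t - u)) * (2 ^ (-(2 * t + 1)) * g.2 ^ u * s ^ (t - u)) := by
          ring
      _ = 2 ^ (-(2 * t + 1)) * g.2 ^ u * s ^ (t - u) := by rw [h3, one_mul]
      _ ≤ 2 ^ (-(2 * t + 1)) * g.2 ^ u * cst t := by gcongr
      _ = cs' t * g.2 ^ u := by unfold cs'; ring
  -- double counting
  set ka : ℕ → K × ℝ → ℝ≥0∞ := fun n g =>
    if g ∈ met n then (if (∃ g ∈ met n, ∃ h ∈ met n, g ≠ h) then ENNReal.ofReal (lam * g.2 ^ t)
      else ediam (D n) ^ u) else 0 with hka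
  have hi : ∀ n, ∑ g ∈ G, ka n g ≤ ediam (D n) ^ u := by
    intro n
    have h1 : ∑ g ∈ G, ka n g = ∑ g ∈ met n,
        (if (∃ g ∈ met n, ∃ h ∈ met n, g ≠ h) then ENNReal.ofReal (lam * g.2 ^ t)
          else ediam (D n) ^ u) := by
      rw [hka]
      simp only
      rw [← Finset.sum_filter]
      congr 1
      ext g
      simp only [hmet, Finset.mem_filter]
      tauto
    rw [h1]
    by_cases hm : ∃ g ∈ met n, ∃ h ∈ met n, g ≠ h
    · simp only [if_pos hm]
      rw [← ENNReal.ofReal_sum_of_nonneg, ← Finset.mul_sum]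
      · exact hA n hm
      · intro g hg
        have := (hG g (Finset.mem_filter.1 hg).1).1
        positivity
    · simp only [if_neg hm]
      rw [Finset.sum_const, nsmul_eq_mul]
      have hcard : (met n).card ≤ 1 := by
        rw [Finset.card_le_one]
        intro a ha b hb
        by_contra hab
        exact hm ⟨a, ha, b, hb, hab⟩
      calc ((met n).card : ℝ≥0∞) * ediam (D n) ^ u ≤ 1 * ediam (D n) ^ u := by
            gcongr
            exact_mod_cast hcard
        _ = _ := one_mul _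
  have hii : ∀ g ∈ G, ENNReal.ofReal (lam * g.2 ^ t) ≤ ∑' n, ka n g := by
    intro g hg
    by_cases hm : ∃ n, g ∈ met n ∧ ∃ g ∈ met n, ∃ h ∈ met n, g ≠ h
    · obtain ⟨n, hgn, hmn⟩ := hm
      have h1 : ka n g = ENNReal.ofReal (lam * g.2 ^ t) := by
        rw [hka]
        simp only
        rw [if_pos hgn, if_pos hmn]
      rw [← h1]
      exact ENNReal.le_tsum n
    · refine (ENNReal.ofReal_le_ofReal (hB g hg)).trans ((hWc g hg).trans ?_)
      have hcov : W g ⊆ ⋃ n, (if g ∈ met n then D n else ∅) := by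
        intro w hw
        have h1 : w ∈ ⋃ n, E n := hE (mem_iUnion₂.2 ⟨g, hg, hw⟩)
        obtain ⟨n, hn⟩ := mem_iUnion.1 h1
        have h2 : w ∈ D n := ⟨hn, (hW g hg hw).1⟩
        have h3 : g ∈ met n := Finset.mem_filter.2 ⟨hg, w, h2, hw⟩
        refine mem_iUnion.2 ⟨n, ?_⟩
        rw [if_pos h3]
        exact h2
      refine (cont_le_cover hcov).trans ?_
      refine ENNReal.tsum_le_tsum fun n => ?_
      by_cases hgn : g ∈ met n
      · rw [if_pos hgn, hka]
        simp only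
        rw [if_pos hgn, if_neg]
        intro h
        exact hm ⟨n, hgn, h⟩
      · rw [if_neg hgn]
        simp [hu0]
  calc ENNReal.ofReal (cs' t * s ^ u) = ENNReal.ofReal (lam * (cst t * s ^ t)) := by
        congr 1
        have h1 : s ^ t = s ^ u * s ^ (t - u) := by
          rw [← Real.rpow_add hs0]; congr 1; ring
        have h3 : s ^ (-(t - u)) * s ^ (t - u) = 1 := by
          rw [← Real.rpow_add hs0]; simp
        rw [hlam, h1]
        unfold cs'
        calc cst t * 2 ^ (-(2 * t + 1)) * s ^ u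
            = cst t * 2 ^ (-(2 * t + 1)) * s ^ u * (s ^ (-(t - u)) * s ^ (t - u)) := by
              rw [h3, mul_one]
          _ = _ := by ring
    _ ≤ ENNReal.ofReal (lam * ∑ g ∈ G, g.2 ^ t) := by
        apply ENNReal.ofReal_le_ofReal
        gcongr
    _ = ∑ g ∈ G, ENNReal.ofReal (lam * g.2 ^ t) := by
        rw [Finset.mul_sum, ENNReal.ofReal_sum_of_nonneg]
        intro g hg
        have := (hG g hg).1
        positivity
    _ ≤ ∑ g ∈ G, ∑' n, ka n g := Finset.sum_le_sum hii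
    _ = ∑' n, ∑ g ∈ G, ka n g := by
        rw [Summable.tsum_finsetSum]
        intro g _
        exact ENNReal.summable
    _ ≤ ∑' n, ediam (D n) ^ u := ENNReal.tsum_le_tsum hi

omit [CompactSpace K] in
lemma node_lower {t u : ℝ} (ht : 0 < t) (hu0 : 0 < u) (hut : u < t) {P : Set K} {y : K} {s : ℝ}
    (hN : Node t P y s) : ENNReal.ofReal (cs' t * s ^ u) ≤ cont u P := by
  have hs0 := hN.pos
  unfold cont
  refine le_iInf₂ fun E hE => ?_
  have hcov : P ⊆ ⋃ n, (E n ∩ P) := by
    rw [← iUnion_inter]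
    exact subset_inter hE subset_rfl
  have h1 : ENNReal.ofReal (2⁻¹ * s ^ t) ≤ ∑' n, ediam (E n ∩ P) ^ t :=
    hN.full.trans (cont_le_cover hcov)
  have h2 : ∀ n, ediam (E n ∩ P) ^ t ≤
      ENNReal.ofReal ((2 * s) ^ (t - u)) * ediam (E n) ^ u := by
    intro n
    have h3 : ediam (E n ∩ P) ≤ ENNReal.ofReal (2 * s) :=
      (ediam_mono (inter_subset_right.trans hN.sub)).trans (ediam_closedBall_le y hs0.le)
    have h4 : ediam (E n ∩ P) ^ t = ediam (E n ∩ P) ^ (t - u) * ediam (E n ∩ P) ^ u := by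
      rw [← ENNReal.rpow_add_of_nonneg _ _ (by linarith) hu0.le]
      congr 1; ring
    rw [h4]
    gcongr
    · rw [← ENNReal.ofReal_rpow_of_nonneg (by linarith) (by linarith)]
      exact ENNReal.rpow_le_rpow h3 (by linarith)
    · exact inter_subset_left
  have h5 : ENNReal.ofReal (2⁻¹ * s ^ t) ≤
      ENNReal.ofReal ((2 * s) ^ (t - u)) * ∑' n, ediam (E n) ^ u := by
    refine h1.trans ?_
    rw [← ENNReal.tsum_mul_left]
    exact ENNReal.tsum_le_tsum h2
  have h6 : (0:ℝ) < (2 * s) ^ (t - u) := by positivity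
  have h7 : ENNReal.ofReal ((2 * s) ^ (t - u)) * ENNReal.ofReal (cs' t * s ^ u) ≤
      ENNReal.ofReal (2⁻¹ * s ^ t) := by
    rw [← ENNReal.ofReal_mul h6.le]
    apply ENNReal.ofReal_le_ofReal
    have h8 : s ^ t = s ^ (t - u) * s ^ u := by
      rw [← Real.rpow_add hs0]; congr 1; ring
    rw [h8, Real.mul_rpow (by norm_num) hs0.le]
    have h9 : (2:ℝ) ^ (t - u) * cs' t ≤ 2⁻¹ := by
      unfold cs'
      calc (2:ℝ) ^ (t - u) * (cst t * 2 ^ (-(2 * t + 1)))
          ≤ (2:ℝ) ^ (t - u) * (1 * 2 ^ (-(2 * t + 1))) := by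
            gcongr
            exact cst_le t ht
        _ = (2:ℝ) ^ ((t - u) + (-(2 * t + 1))) := by
            rw [Real.rpow_add (by norm_num), one_mul]
        _ ≤ (2:ℝ) ^ (-1 : ℝ) := by
            apply Real.rpow_le_rpow_of_exponent_le (by norm_num)
            linarith
        _ = 2⁻¹ := by rw [Real.rpow_neg_one]
    calc (2:ℝ) ^ (t - u) * s ^ (t - u) * (cs' t * s ^ u)
        = ((2:ℝ) ^ (t - u) * cs' t) * (s ^ (t - u) * s ^ u) := by ring
      _ ≤ 2⁻¹ * (s ^ (t - u) * s ^ u) := by gcongr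
  have h8 := h7.trans h5
  have h9 : ENNReal.ofReal ((2 * s) ^ (t - u)) ≠ 0 := (ENNReal.ofReal_pos.2 h6).ne'
  exact (ENNReal.mul_le_mul_iff_right h9 ENNReal.ofReal_ne_top).1 h8

/-- Lower bound on contents. -/
lemma T_lower {t u : ℝ} (ht : 0 < t) (hu0 : 0 < u) (hut : u < t) (m : ℕ) :
    ∀ {P : Set K} {y : K} {s : ℝ}, Node t P y s → s ^ (t - u) ≤ cst t →
      ENNReal.ofReal (cs' t * s ^ u) ≤ cont u (T t m P y s) := by
  induction m with
  | zero => intro P y s hN _; exact node_lower ht hu0 hut hN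
  | succ m ih =>
    intro P y s hN hs
    obtain ⟨h1, h2, h3, -, h4⟩ := kids_spec ht hN
    have hs0 := hN.pos
    refine core hu0 hut hN (kids t P y s) (fun g hg => ⟨(h1 g hg).2.pos, (h1 g hg).1⟩)
      h2 h3 h4 (fun g => T t m (P ∩ closedBall g.1 g.2) g.1 g.2) (fun g _ => T_sub m) ?_ hs
    intro g hg
    obtain ⟨h5, h6⟩ := h1 g hg
    apply ih h6
    refine le_trans ?_ hs
    apply Real.rpow_le_rpow h6.pos.le _ (by linarith)
    have := hN.small
    nlinarith

lemma exists_desc {t : ℝ} (ht : 0 < t) (k : ℕ) : ∀ {P : Set K} {y : K} {s : ℝ},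
    Node t P y s → ∃ (Q : Set K) (z : K) (σ : ℝ), Node t Q z σ ∧ σ ≤ s ^ 2 ^ k ∧
      ∀ m, T t m Q z σ ⊆ T t (m + k) P y s := by
  induction k with
  | zero =>
    intro P y s hN
    exact ⟨P, y, s, hN, by simp, fun m => subset_rfl⟩
  | succ k ih =>
    intro P y s hN
    obtain ⟨h1, -, -, -, h4⟩ := kids_spec ht hN
    have hne : (kids t P y s).Nonempty := by
      rw [Finset.nonempty_iff_ne_empty]
      intro h
      rw [h, Finset.sum_empty] at h4
      have := cst_pos t
      have h5 : 0 < s ^ t := Real.rpow_pos_of_pos hN.pos t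
      have : 0 < cst t * s ^ t := by positivity
      linarith
    obtain ⟨g, hg⟩ := hne
    obtain ⟨h5, h6⟩ := h1 g hg
    obtain ⟨Q, z, σ, hQ, hσ, hsub⟩ := ih h6
    refine ⟨Q, z, σ, hQ, ?_, ?_⟩
    · refine hσ.trans ?_
      rw [pow_succ' 2 k, pow_mul]
      exact pow_le_pow_left₀ h6.pos.le h5 _
    · intro m
      refine (hsub m).trans ?_
      intro x hx
      rw [← add_assoc]
      exact mem_iUnion₂.2 ⟨g, hg, hx⟩

end Pool.Agent.V1190.HD
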